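import Pool.Agent.Helper6.MT9.HLA

/-!
# T9, module HWT: the weight of a Hodge class is zero
-/

set_option autoImplicit false

open NumberField MU MT HD

namespace MT

/-- HWT -/
theorem st_HWT : ST_HWT := by
  intro F _ _ S n w h M p q t hw ht h0
  exact (hodge_deg M hw t ht).resolve_right h0

end MT
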