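import Pool.Agent.Helper21.MT9.Stmts
import Pool.Agent.Helper6.HD.Main

/-!
# T9, module HLA: the Lie algebra of the Mumford-Tate group
-/

set_option autoImplicit false

open NumberField MU MT HD

namespace HD

section Ring

variable {R : Type} [CommRing R] {n : ℕ}

theorem tpf_lie {a : ℕ} (A B : Matrix (Fin n) (Fin n) R) (s r : Fin a) :
    tpf (Function.update (fun _ : Fin a => (1 : Matrix (Fin n) (Fin n) R)) s A) *
        tpf (Function.update (fun _ : Fin a => (1 : Matrix (Fin n) (Fin n) R)) r B) -
      tpf (Function.update (fun _ : Fin a => (1 : Matrix (Fin n) (Fin n) R)) r B) *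
        tpf (Function.update (fun _ : Fin a => (1 : Matrix (Fin n) (Fin n) R)) s A) =
      if s = r then
        tpf (Function.update (fun _ : Fin a => (1 : Matrix (Fin n) (Fin n) R)) s
          (A * B - B * A)) else 0 := by
  rw [tpf_mul, tpf_mul]
  by_cases hsr : s = r
  · subst hsr
    rw [if_pos rfl]
    have h1 : ∀ X Y : Matrix (Fin n) (Fin n) R,
        (fun q => Function.update (fun _ : Fin a => (1 : Matrix (Fin n) (Fin n) R)) s X q *
          Function.update (fun _ : Fin a => (1 : Matrix (Fin n) (Fin n) R)) s Y q) =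
        Function.update (fun _ : Fin a => (1 : Matrix (Fin n) (Fin n) R)) s (X * Y) := by
      intro X Y
      funext q
      by_cases hq : q = s
      · subst hq
        rw [Function.update_self, Function.update_self, Function.update_self]
      · rw [Function.update_of_ne hq, Function.update_of_ne hq, Function.update_of_ne hq,
          mul_one]
    rw [h1, h1]
    ext i j
    rw [Matrix.sub_apply, tpf_update, tpf_update, tpf_update, Matrix.sub_apply, sub_mul]
  · rw [if_neg hsr, sub_eq_zero]
    congr 1
    funext q
    by_cases hq : q = s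
    · subst hq
      rw [Function.update_of_ne hsr, mul_one, one_mul]
    · rw [Function.update_of_ne hq, mul_one, one_mul]

theorem dtp_lie (a : ℕ) (A B : Matrix (Fin n) (Fin n) R) :
    dtp a (A * B - B * A) = dtp a A * dtp a B - dtp a B * dtp a A := by
  unfold dtp
  rw [Finset.sum_mul_sum, Finset.sum_mul_sum]
  rw [Finset.sum_comm (s := Finset.univ) (t := Finset.univ) (f := fun i j =>
    tpf (Function.update (fun _ : Fin a => (1 : Matrix (Fin n) (Fin n) R)) i B) *
      tpf (Function.update (fun _ : Fin a => (1 : Matrix (Fin n) (Fin n) R)) j A))]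
  rw [← Finset.sum_sub_distrib]
  refine Finset.sum_congr rfl fun s _ => ?_
  rw [← Finset.sum_sub_distrib, Finset.sum_congr rfl fun r _ => tpf_lie A B s r]
  simp

theorem Kill.lie {a b : ℕ} {A B : Matrix (Fin n) (Fin n) R} {t : Tensor n a b R}
    (hA : Kill A t) (hB : Kill B t) : Kill (A * B - B * A) t := by
  unfold Kill at *
  set T : Matrix (Fin a → Fin n) (Fin b → Fin n) R := Matrix.of t with hT
  rw [dtp_lie, dtp_lie, Matrix.sub_mul, Matrix.mul_sub]
  have h1 : ∀ (X Y : Matrix (Fin n) (Fin n) R), dtp a X * T = T * dtp b X →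
      dtp a Y * T = T * dtp b Y → dtp a X * dtp a Y * T = T * (dtp b X * dtp b Y) := by
    intro X Y hX hY
    rw [Matrix.mul_assoc, hY, ← Matrix.mul_assoc, hX, Matrix.mul_assoc]
  rw [h1 A B hA hB, h1 B A hB hA]

end Ring

end HD

namespace MT

/-- HLA -/
theorem st_HLA : ST_HLA := by
  intro F _ _ S n w h M
  refine ⟨mlie M, ?_, ?_, ?_, ?_⟩
  · intro A
    exact mem_mlie M A
  · intro A hA B hB a b t ht
    exact (hA a b t ht).lie (hB a b t ht)
  · exact mlie_sim M
  · rcases Nat.eq_zero_or_pos w with h0 | h0
    · have h1 : (fun j => (h j : ℂ)) = fun _ => 0 := by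
        funext j
        have := M.hodge_le j
        have h2 : h j = 0 := by omega
        rw [h2, Nat.cast_zero]
      rw [h1]
      have h2 : Matrix.diagonal (fun _ : Fin n => (0 : ℂ)) = 0 := Matrix.diagonal_zero
      rw [h2, Matrix.mul_zero, Matrix.zero_mul]
      exact Submodule.zero_mem _
    · exact hodge_mem_spn M h0

end MT
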